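import Pool.Agent.Q198.TQ.Main

/-!
MP_3e1590_mp, Q1: disproof.  There is a three-qubit paradox (with 3, 3 and 4 measurements) none of
whose qubits is maximally mixed, whereas every interpolant state `B_l` has a maximally mixed qubit.
-/

namespace Pool.Agent.Results.MP_3e1590_mp.OctagonParadox

open Q198.TQ

theorem result :
    (∃ S : Scenario, S.IsParadox ∧
      ∀ l : ℝ, ¬ StateEquiv S.ψ (interp l) ∧
        ∀ S' : Scenario, S'.ψ = interp l → ¬ Equivalent S S') ∧
    ¬ (∀ S : Scenario, S.IsParadox →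
      ∃ l : ℝ, 0 ≤ l ∧ l < Real.pi / 2 ∧
        ∃ S' : Scenario, S'.ψ = interp l ∧ S'.IsParadox ∧ Equivalent S S') :=
  main

end Pool.Agent.Results.MP_3e1590_mp.OctagonParadox
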